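import Pool.Agent.Mg.Fa5588aa.G61c458

/-!
Every nontrivial finite 3-group `T` has a nontrivial characteristic subgroup `C` with
`T ∩ G' = T ∩ N_G(C)'` for all finite groups `G` with Sylow 3-subgroup `T`.
-/

namespace Pool.Agent.Results.MP_a5588a_al.Full

open Pool.Agent.MP_a5588a_al.Solv Pool.Agent.MP_a5588a_al.Full

theorem result (T : Type*) [Group T] [Finite T] [Nontrivial T] (hT : IsPGroup 3 T) :
    ∃ C : Subgroup T, C.Characteristic ∧ C ≠ ⊥ ∧
      ∀ (G : Type*) [Group G] [Finite G] (S : Sylow 3 G) (f : T →* G),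
        Function.Injective f → f.range = (S : Subgroup G) →
        (S : Subgroup G) ⊓ commutator G = (S : Subgroup G) ⊓
          ⁅Subgroup.normalizer (C.map f : Set G), Subgroup.normalizer (C.map f : Set G)⁆ := by
  obtain ⟨W, hW₀, hW⟩ := thmF T hT
  have hc : W.Characteristic := by
    rw [Subgroup.characteristic_iff_le_comap]
    intro φ x hx
    exact (hW ⊤ cp_top).2
      ((Subgroup.topEquiv.trans φ).trans Subgroup.topEquiv.symm) ⟨x, trivial⟩ hx
  refine ⟨W, hc, hW₀, fun G _ _ S f hf hS => focal_of_FI S ?_ fun θ hθ h => ?_⟩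
  · rw [← hS]
    rintro _ ⟨t, rfl⟩
    refine Subgroup.mem_normalizer_fintype ?_
    rintro _ ⟨w, hw, rfl⟩
    exact ⟨t * w * t⁻¹, (inferInstance : W.Normal).conj_mem w hw t, by simp⟩
  · refine mainF _ G f.range _ (hW.map (MonoidHom.ofInjective hf)) S f.range.subtype
      f.range.subtype_injective (by rw [Subgroup.range_subtype, hS]) θ hθ ?_
    rw [Subgroup.map_map]
    exact h

end Pool.Agent.Results.MP_a5588a_al.Full
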